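import Pool.Agent.W394.BQN.Stm2
import Pool.Agent.W771.BQN.TOW

set_option autoImplicit false

open Polynomial

noncomputable section

namespace Pool.Agent.W971.BQN

open Pool.Agent.W394.BQN BQ

theorem congr_good {A B : Type} [CommRing A] [CommRing B] (e : A ≃+* B) (h : IsLocGood B) :
    IsLocGood A := by
  obtain ⟨V, i1, i2, i3, n, D, i4, j, hj, k, q, hq, ⟨f⟩⟩ := h
  exact ⟨V, i1, i2, i3, n, D, i4, j, hj, k, q, hq, ⟨e.trans f⟩⟩

theorem good_prime (n : ℕ) (V D : Type) [CommRing V] [IsDomain V] [IsPrincipalIdealRing V]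
    [CommRing D] (j : V →+* D) (h : GoodN n V D j) (q : Ideal D) [hq : q.IsPrime] :
    IsLocGood (Localization.AtPrime q) := by
  let e : D ≃+* MvPolynomial (Fin 0) D := (MvPolynomial.isEmptyRingEquiv D (Fin 0)).symm
  let q' : Ideal (MvPolynomial (Fin 0) D) := q.comap (e.symm : MvPolynomial (Fin 0) D →+* D)
  have hq' : q'.IsPrime := Ideal.comap_isPrime _ q
  have hmap : q.primeCompl.map (e : D →* MvPolynomial (Fin 0) D) = q'.primeCompl := by
    ext s
    constructor
    · rintro ⟨t, ht, rfl⟩ h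
      apply ht
      have h1 : e.symm (e t) ∈ q := h
      rwa [e.symm_apply_apply] at h1
    · intro hs
      exact ⟨e.symm s, hs, e.apply_symm_apply s⟩
  exact ⟨V, inferInstance, inferInstance, inferInstance, n, D, inferInstance, j, h, 0, q', hq',
      ⟨IsLocalization.ringEquivOfRingEquiv (Localization.AtPrime q) (Localization.AtPrime q') e
        hmap⟩⟩

theorem key (h1 : S_SLA) (h2 : S_SLB) (h4 : S_DVR) (h5 : S_FAC)
    (V : Type) [CommRing V] [IsDomain V] [IsPrincipalIdealRing V] [IsLocalRing V]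
    (u : V[X]) (hu : u.Monic) (hreg : IsRegularRing (V[X] ⧸ Ideal.span {u}))
    (n : ℕ) (q : Ideal (Semi V[X] u n)) [hq : q.IsPrime] :
    IsLocGood (Localization.AtPrime q) := by
  let f : V[X] →+* Semi V[X] u n := (Q.pr V[X] u n).comp MvPolynomial.C
  let m : Ideal V[X] := q.comap f
  have hm : m.IsPrime := Ideal.comap_isPrime _ _
  by_cases hum : u ∈ m
  · obtain ⟨u₁, w, rfl, hu₁, hded, hw⟩ := h5 V u hu hreg m hum
    obtain ⟨q', hq', ⟨e⟩⟩ := h1 V[X] u₁ w n q hw
    obtain ⟨j, hj⟩ := h4 V u₁ hu₁ hded n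
    exact congr_good e (good_prime n V (Semi V[X] u₁ n) j hj q')
  · obtain ⟨q', hq', ⟨e⟩⟩ := h2 V[X] u n q hum
    obtain ⟨k, e', he'⟩ := Pool.Agent.W771.BQN.base_poly V
    exact ⟨V, inferInstance, inferInstance, inferInstance, 0, V[X], inferInstance, C,
      ⟨k, e', he'⟩, n, q', hq', ⟨e⟩⟩

theorem pid_loc (V : Type) [CommRing V] [IsDedekindDomain V] (p : Ideal V) [p.IsPrime] :
    IsDomain (Localization.AtPrime p) ∧ IsPrincipalIdealRing (Localization.AtPrime p) := by
  have hd : IsDedekindDomain (Localization.AtPrime p) :=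
    IsLocalization.isDedekindDomain V p.primeCompl_le_nonZeroDivisors _
  refine ⟨inferInstance, ?_⟩
  apply IsPrincipalIdealRing.of_finite_maximals
  have : {I : Ideal (Localization.AtPrime p) | I.IsMaximal} ⊆
      {IsLocalRing.maximalIdeal (Localization.AtPrime p)} := by
    intro I hI
    exact IsLocalRing.eq_maximalIdeal hI
  exact (Set.finite_singleton _).subset this

theorem t_LOCG (h1 : S_SLA) (h2 : S_SLB) (h3 : S_SLC) (h4 : S_DVR) (h5 : S_FAC) (h6 : S_RL) :
    S_LOCG := by
  intro V _ _ u hu hreg n q hq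
  let jV : V →+* Semi V[X] u n := (Q.pr V[X] u n).comp (MvPolynomial.C.comp Polynomial.C)
  let p : Ideal V := q.comap jV
  have hp : p.IsPrime := Ideal.comap_isPrime _ _
  obtain ⟨hdom, hpid⟩ := pid_loc V p
  let M : Submonoid V[X] := p.primeCompl.map (Polynomial.C : V →+* V[X])
  let alg : Algebra V[X] (Localization.AtPrime p)[X] :=
    Polynomial.algebra V (Localization.AtPrime p)
  have hloc : IsLocalization M (Localization.AtPrime p)[X] :=
    Polynomial.isLocalization p.primeCompl (Localization.AtPrime p)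
  have hM : ∀ m ∈ M, Q.pr V[X] u n (MvPolynomial.C m) ∉ q := by
    rintro _ ⟨v, hv, rfl⟩ hmem
    exact hv hmem
  obtain ⟨q', hq', -, ⟨e⟩⟩ := h3 V[X] (Localization.AtPrime p)[X] M u n q hM
  refine congr_good (A := Localization.AtPrime q) (B := Localization.AtPrime q') e ?_
  have hmap : algebraMap V[X] (Localization.AtPrime p)[X] u =
      u.map (algebraMap V (Localization.AtPrime p)) := rfl
  refine key h1 h2 h4 h5 (Localization.AtPrime p)
    (algebraMap V[X] (Localization.AtPrime p)[X] u) ?_ ?_ n q'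
  · rw [hmap]
    exact hu.map _
  · rw [hmap]
    exact h6 V p u hreg

end Pool.Agent.W971.BQN
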